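import Pool.Agent.N719.SP.Main

set_option autoImplicit false

/-!
# MP_f6c7cf_nt: a single exceptional prime whose order of `2` is divisible by `3`

For odd `n` the quadruples `(x, y, z, w)` of natural numbers with `n = x² + y² + z² + 4 w²` are
considered; `N` stands for `2^x + 2^y + 2^z + 1`. In the starting results BeyondLogarithm and
LogSquared all prime factors of `N` in the ranges `q ≤ c log n log log n / log log log n` (all odd `n`)
and `q ≤ c (log n)²` (almost all odd `n`) are odd and exceptional: (a) `l²` divides the order of `2`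
modulo `q` for a prime `l ≥ 5` that divides `(3n-2)(9n-2)`, or (b) `3` divides this order, `q ≠ 7`, unless
`3 ∣ n` or `n ≡ 13 mod 32`. The primes in (b) are `3/8` of all primes.

Here (b) is reduced to one prime: `7` if `n ≡ 1 mod 3`, `73` if `n ≡ 5, 8 mod 9` and `262657` if
`n ≡ 2 mod 9`, and to no prime if `n - 2 = 9^k (3j+1)` (for instance if `3 ∣ n` or `n ≡ 11 mod 27`) or
`n - 9 = 4^(k+1) (8j+1)` (for instance if `n ≡ 13 mod 32`). In (a) only the primes `l ≡ 2 mod 3` which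
divide `3n-2` remain if `n ≡ 1 mod 4`, and only the `l ≡ 3 mod 4` which divide `9n-2` if `n ≡ 3 mod 4`.

The proof. As before `x = y = -z-1` or `x = y = 2z-1` modulo `K`, so that `N` is `1 + T + T²` up to a
unit modulo the prime factors `q` of `2^K - 1`, `T = 2^z`, and `q` divides `N` only if `T` has the order
three modulo `q`. The new point: `z` can be chosen odd, coprime to the part of `K` which is coprime to 6
(change the sign of `X` in the conic `X² + αW² = αn - 2` modulo some prime powers), and with a prescribed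
power `3^j` which divides `z` exactly. Then the order of `2` modulo such a `q` is `3^(j+1)`.
-/

namespace Pool.Agent.Results.MP_f6c7cf_nt.ExceptionalPrimes

/-- the exceptional primes -/
def Exceptional (n q : ℕ) : Prop :=
  (∃ l : ℕ, l.Prime ∧ 5 ≤ l ∧ l ^ 2 ∣ orderOf (2 : ZMod q) ∧
    ((n % 4 = 1 ∧ l % 3 = 2 ∧ (l : ℤ) ∣ 3 * n - 2) ∨ (n % 4 = 3 ∧ l % 4 = 3 ∧ (l : ℤ) ∣ 9 * n - 2))) ∨
  ((¬ ∃ k j : ℕ, n = 9 ^ k * (3 * j + 1) + 2) ∧ (¬ ∃ k j : ℕ, n = 4 ^ (k + 1) * (8 * j + 1) + 9) ∧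
    ((n % 3 = 1 ∧ q = 7) ∨ (n % 3 = 2 ∧ n % 9 ≠ 2 ∧ q = 73) ∨ (n % 9 = 2 ∧ q = 262657)))

/-- For every `ε > 0` there is `c > 0` such that every large odd `n` has at least `n ^ (1 - ε)`
quadruples with `n = x² + y² + z² + 4w²` for which every prime factor
`q ≤ c log n log log n / log log log n` of `2^x + 2^y + 2^z + 1` is odd and exceptional; and the same with
`q ≤ c (log n)²`, if no square of a prime `l` with `c log n < l ≤ (log n)²` divides `n`. -/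
theorem result (ε : ℝ) (hε : 0 < ε) :
    (∃ c : ℝ, 0 < c ∧ ∃ n₀ : ℕ, ∀ n : ℕ, n₀ ≤ n → Odd n →
      ∃ S : Finset (ℕ × ℕ × ℕ × ℕ), (n : ℝ) ^ (1 - ε) ≤ (S.card : ℝ) ∧
        ∀ x y z w : ℕ, (x, y, z, w) ∈ S → n = x ^ 2 + y ^ 2 + z ^ 2 + 4 * w ^ 2 ∧
          ∀ q : ℕ, q.Prime → q ∣ 2 ^ x + 2 ^ y + 2 ^ z + 1 →
            (q : ℝ) ≤ c * (Real.log n * Real.log (Real.log n) / Real.log (Real.log (Real.log n))) →
            q ≠ 2 ∧ Exceptional n q) ∧
    ∃ c : ℝ, 0 < c ∧ ∃ n₀ : ℕ, ∀ n : ℕ, n₀ ≤ n → Odd n →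
      (∀ l : ℕ, l.Prime → c * Real.log n < l → (l : ℝ) ≤ (Real.log n) ^ 2 → ¬ l ^ 2 ∣ n) →
      ∃ S : Finset (ℕ × ℕ × ℕ × ℕ), (n : ℝ) ^ (1 - ε) ≤ (S.card : ℝ) ∧
        ∀ x y z w : ℕ, (x, y, z, w) ∈ S → n = x ^ 2 + y ^ 2 + z ^ 2 + 4 * w ^ 2 ∧
          ∀ q : ℕ, q.Prime → q ∣ 2 ^ x + 2 ^ y + 2 ^ z + 1 → (q : ℝ) ≤ c * (Real.log n) ^ 2 →
            q ≠ 2 ∧ Exceptional n q := by
  constructor
  · obtain ⟨c, hc, n0, h⟩ := Pool.Agent.N719.SP.mainA ε hε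
    refine ⟨c, hc, n0, fun n hn hno => ?_⟩
    obtain ⟨S, h1, h2⟩ := h n hn hno
    refine ⟨S, h1, fun x y z w hS => ?_⟩
    obtain ⟨g1, g2⟩ := h2 x y z w hS
    refine ⟨g1, fun q hq hqN hqc => ?_⟩
    obtain ⟨k1, k2⟩ := g2 q hq hqN hqc
    exact ⟨k1, Pool.Agent.N719.SP.exc_final n q hno hq k2⟩
  · obtain ⟨c, hc, n0, h⟩ := Pool.Agent.N719.SP.mainB ε hε
    refine ⟨c, hc, n0, fun n hn hno hl => ?_⟩
    obtain ⟨S, h1, h2⟩ := h n hn hno hl
    refine ⟨S, h1, fun x y z w hS => ?_⟩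
    obtain ⟨g1, g2⟩ := h2 x y z w hS
    refine ⟨g1, fun q hq hqN hqc => ?_⟩
    obtain ⟨k1, k2⟩ := g2 q hq hqN hqc
    exact ⟨k1, Pool.Agent.N719.SP.exc_final n q hno hq k2⟩

end Pool.Agent.Results.MP_f6c7cf_nt.ExceptionalPrimes
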