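import Mathlib
import Pool.Agent.N860.GS.Law

set_option autoImplicit false

/-!
# The question in random models of the primes with a growing sieve

The question is whether every odd `n` is of the form `x² + y² + z² + 4w²` with natural numbers such that
`2 ^ x + 2 ^ y + 2 ^ z + 1` is prime.  We answer it, with an asymptotic formula for the number of quadruples, in
random models of the primes with a growing sieve by the primes of a set `P`: the integers are decided one after the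
other, no `m` with a prime factor in `P` at most `z(m)` is chosen, where `z` is ANY function with
`z(m) ≤ c L log L / log log L`, `L = log log m`, and the conditional probability of choosing `m + 1` (without such
prime factors) given the past is asymptotic to `∏_{q ≤ z(m + 1), q ∈ P} (1 - 1/q)⁻¹ / log m`.  No independence and no
rate is assumed.  At the numbers `2 ^ x + 2 ^ y + 2 ^ z + 1` in question the sieve may go beyond `log n`.

The law of large numbers is that of Pool.Agent.R494.SPL2, used for growing sieves by helper233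
(Pool.Agent.N233.GM), the expected number is bounded below by the starting result BeyondLogarithm.
-/

open MeasureTheory Filter
open scoped Topology

namespace Pool.Agent.Results.MP_f6c7cf_nt.GrowingSieveModels

/-- the quadruples of natural numbers with `n = x² + y² + z² + 4w²` -/
def reps (n : ℕ) : Set (ℕ × ℕ × ℕ × ℕ) :=
  {v | n = v.1 ^ 2 + v.2.1 ^ 2 + v.2.2.1 ^ 2 + 4 * v.2.2.2 ^ 2}

/-- the value `2 ^ x + 2 ^ y + 2 ^ z + 1` -/
def form (v : ℕ × ℕ × ℕ × ℕ) : ℕ := 2 ^ v.1 + 2 ^ v.2.1 + 2 ^ v.2.2.1 + 1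

/-- the number of quadruples of natural numbers with `n = x² + y² + z² + 4w²` for which
`2 ^ x + 2 ^ y + 2 ^ z + 1` belongs to `S` -/
noncomputable def R (S : Set ℕ) (n : ℕ) : ℕ := {v | v ∈ reps n ∧ form v ∈ S}.ncard

/-- `m` has no prime factor in `P` at most `z m` -/
def Rough (P : Set ℕ) (z : ℕ → ℕ) (m : ℕ) : Prop := ∀ q, q.Prime → q ∈ P → q ≤ z m → ¬ q ∣ m

open Classical in
/-- `∏_{q ≤ x, q ∈ P} (1 - 1/q)⁻¹`, `q` prime -/
noncomputable def W (P : Set ℕ) (x : ℕ) : ℝ :=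
  ∏ q ∈ (Finset.Icc 1 x).filter (fun q => q.Prime ∧ q ∈ P), (1 - (q : ℝ)⁻¹)⁻¹

open Classical in
/-- the density of the model at `m`: the minimum of `1` and `W P (z m) / log m` if `m` has no prime factor in `P`
at most `z m`, and `0` otherwise -/
noncomputable def rho (P : Set ℕ) (z : ℕ → ℕ) (m : ℕ) : ℝ :=
  if Rough P z m then min 1 (W P (z m) / Real.log m) else 0

/-- the expected number of quadruples: the sum of the densities at `2 ^ x + 2 ^ y + 2 ^ z + 1` over all quadruples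
with `n = x² + y² + z² + 4w²` -/
noncomputable def E (P : Set ℕ) (z : ℕ → ℕ) (n : ℕ) : ℝ := ∑ᶠ v ∈ reps n, rho P z (form v)

/-- `L log L / log log L` -/
noncomputable def G (L : ℝ) : ℝ := L * Real.log L / Real.log (Real.log L)

/-- for every odd prime `q ∈ P`, `q ≤ x`, with `t` the order of `2` modulo `q`: no prime `l ≥ 5` with
`l² ∣ t` divides `(3n - 2)(9n - 2)`; and if `3 ∣ t` then `q = 7` or `3 ∣ n` or `n ≡ 13 mod 32` -/
def Reg (P : Set ℕ) (x : ℝ) (n : ℕ) : Prop :=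
  ∀ q : ℕ, q.Prime → q ∈ P → (q : ℝ) ≤ x → q ≠ 2 →
    (∀ l : ℕ, l.Prime → 5 ≤ l → l ^ 2 ∣ orderOf (2 : ZMod q) → ¬ (l : ℤ) ∣ (3 * n - 2) * (9 * n - 2)) ∧
    (3 ∣ orderOf (2 : ZMod q) → q = 7 ∨ 3 ∣ n ∨ n % 32 = 13)

open Pool.Agent.R494.SPL

lemma reps_eq (n : ℕ) : reps n = ((quad3 n : Finset (ℕ × ℕ × ℕ × ℕ)) : Set (ℕ × ℕ × ℕ × ℕ)) := by
  ext v
  rw [Finset.mem_coe, mem_quad3]
  rfl

lemma E_eq (P : Set ℕ) (z : ℕ → ℕ) (n : ℕ) :
    E P z n = ∑ v ∈ quad3 n, Pool.Agent.N860.GS.rho P z (val3 v) := by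
  unfold E
  rw [reps_eq, finsum_mem_coe_finset]
  rfl

lemma R_eq {Ω : Type} {A : ℕ → Set Ω} (ω : Ω) (n : ℕ) :
    (R {k : ℕ | ω ∈ A k} n : ℝ) = ∑ v ∈ quad3 n, Pool.Agent.R528.RM.In A (val3 v) ω := by
  classical
  have h0 : {v | v ∈ reps n ∧ form v ∈ {k : ℕ | ω ∈ A k}} =
      (((quad3 n).filter (fun v => ω ∈ A (val3 v)) : Finset (ℕ × ℕ × ℕ × ℕ)) : Set (ℕ × ℕ × ℕ × ℕ)) := by
    ext v
    rw [Set.mem_ofPred_eq, reps_eq, Finset.mem_coe, Finset.mem_coe, Finset.mem_filter]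
    rfl
  unfold R
  rw [h0, Set.ncard_coe_finset, Finset.card_filter]
  push_cast
  refine Finset.sum_congr rfl fun v _ => ?_
  unfold Pool.Agent.R528.RM.In
  by_cases h : ω ∈ A (val3 v)
  · simp [h]
  · simp [h]

/-- **Growing sieves.**  For every `ε > 0` there is `c > 0` such that the following holds.  Let `S n` be the event that
`n` is chosen, adapted to a filtration `ℱ`.  Let `P` be a set of primes and `z(n)` natural numbers with
`z(n) ≤ c L log L / log log L`, `L = log log n`, for all large `n`; let no `n` with a prime factor in `P` at most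
`z(n)` be chosen, and let the conditional probability of `S (n + 1)` given `ℱ n`, times
`log n / ∏_{q ≤ z(n + 1), q ∈ P} (1 - 1/q)⁻¹`, tend to `1` along the `n` for which `n + 1` has no prime factor in `P`
at most `z(n + 1)`, almost surely.  Let `R(n)` be the number of quadruples of natural numbers with
`n = x² + y² + z² + 4w²` for which `2 ^ x + 2 ^ y + 2 ^ z + 1` is chosen, and `E(n)` the expected number.  Call `n`
regular if it is odd and satisfies the local condition `Reg` at the primes `q ∈ P` up to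
`c L log L / log log L`, `L = log n`.  (1) `E(n) ≥ n ^ (1/2 - ε)` for all large regular `n`.  (2) Almost surely
`R(n) / E(n)` tends to `1` as `n → ∞`, `n` regular.  (3) Almost surely `R(n) ≥ n ^ (1/2 - ε)` for all large regular
`n`.  (4) All odd `n` are regular if the order of `2` modulo `q` is not divisible by `3` (unless `q = 7`) nor by `l²`,
`l ≥ 5` prime, for all odd primes `q ∈ P`.  (5) For every `P`, the odd `n` are regular for which `3 ∣ n` or
`n ≡ 13 mod 32` and no prime `l ≥ 5` with `l² ≤ c L log L / log log L`, `L = log n`, divides `(3n - 2)(9n - 2)`. -/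
theorem result (ε : ℝ) (hε : 0 < ε) : ∃ c : ℝ, 0 < c ∧
    ∀ {Ω : Type} [mΩ : MeasurableSpace Ω] (μ : Measure Ω) [IsProbabilityMeasure μ]
    (ℱ : Filtration ℕ mΩ) (S : ℕ → Set Ω) (_ : ∀ n, MeasurableSet[ℱ n] (S n)) (P : Set ℕ) (z : ℕ → ℕ)
    (_ : ∀ᶠ n : ℕ in atTop, (z n : ℝ) ≤ c * G (Real.log (Real.log n)))
    (_ : ∀ n, (∃ q, q.Prime ∧ q ∈ P ∧ q ≤ z n ∧ q ∣ n) → S n = ∅)
    (_ : ∀ᵐ ω ∂μ, Tendsto (fun n : ℕ =>
      (μ[(S (n + 1)).indicator (fun _ => (1 : ℝ)) | ℱ n]) ω * Real.log n / W P (z (n + 1)))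
      (atTop ⊓ 𝓟 {n : ℕ | Rough P z (n + 1)}) (𝓝 1)),
    (∀ᶠ n : ℕ in atTop, Odd n → Reg P (c * G (Real.log n)) n → (n : ℝ) ^ (1 / 2 - ε) ≤ E P z n) ∧
    (∀ᵐ ω ∂μ, Tendsto (fun n : ℕ => (R {k | ω ∈ S k} n : ℝ) / E P z n)
      (atTop ⊓ 𝓟 {n : ℕ | Odd n ∧ Reg P (c * G (Real.log n)) n}) (𝓝 1)) ∧
    (∀ᵐ ω ∂μ, ∀ᶠ n : ℕ in atTop, Odd n → Reg P (c * G (Real.log n)) n →
      (n : ℝ) ^ (1 / 2 - ε) ≤ R {k | ω ∈ S k} n) ∧
    ((∀ q ∈ P, q.Prime → q ≠ 2 → (3 ∣ orderOf (2 : ZMod q) → q = 7) ∧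
      ∀ l : ℕ, l.Prime → 5 ≤ l → ¬ l ^ 2 ∣ orderOf (2 : ZMod q)) → ∀ n : ℕ, Reg P (c * G (Real.log n)) n) ∧
    (∀ n : ℕ, (3 ∣ n ∨ n % 32 = 13) → (∀ l : ℕ, l.Prime → 5 ≤ l → ((l ^ 2 : ℕ) : ℝ) ≤ c * G (Real.log n) →
      ¬ (l : ℤ) ∣ (3 * n - 2) * (9 * n - 2)) → Reg P (c * G (Real.log n)) n) := by
  classical
  obtain ⟨c₂, hc₂, hlow₂⟩ := Pool.Agent.N860.GS.low (min ε 1) (lt_min hε one_pos) (min_le_right _ _)
  obtain ⟨c₃, hc₃, hlow₃⟩ := Pool.Agent.N860.GS.low (1 / 4) (by norm_num) (by norm_num)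
  have hc0 : 0 < min c₂ c₃ := lt_min hc₂ hc₃
  refine ⟨min c₂ c₃, hc0, ?_⟩
  intro Ω mΩ μ hμ ℱ S hS P z hz hsieve hd
  have hV := Pool.Agent.N860.GS.short (min c₂ c₃) hc0.le P z hz
  have hE2 := hlow₂ (min c₂ c₃) hc0 (min_le_left _ _) P z hz
  have hE3 := hlow₃ (min c₂ c₃) hc0 (min_le_right _ _) P z hz
  have hcop : ∀ n, ¬ Pool.Agent.N860.GS.Rough P z n → S n = ∅ := by
    intro n hn
    unfold Pool.Agent.N860.GS.Rough at hn
    push Not at hn
    exact hsieve n hn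
  have hprof := Pool.Agent.N860.GS.profile (μ := μ) (ℱ := ℱ) (A := S) P z hV hcop hd
  have hlaw := Pool.Agent.N860.GS.law (μ := μ) (ℱ := ℱ) (A := S) hS P z hprof
  have hElow : ∀ᶠ n : ℕ in atTop, Odd n → Reg P (min c₂ c₃ * G (Real.log n)) n →
      2 * (n : ℝ) ^ (1 / 2 - ε) ≤ E P z n := by
    filter_upwards [hE2, eventually_ge_atTop 1] with n h1 h2 hn hr
    rw [E_eq]
    refine le_trans ?_ (h1 hn hr)
    have h3 : (n : ℝ) ^ (1 / 2 - ε) ≤ (n : ℝ) ^ (1 / 2 - min ε 1) :=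
      Real.rpow_le_rpow_of_exponent_le (by exact_mod_cast h2) (by linarith [min_le_left ε 1])
    linarith
  have key : ∀ᵐ ω ∂μ, ∀ η : ℝ, 0 < η → ∀ᶠ n : ℕ in atTop, Odd n → Reg P (min c₂ c₃ * G (Real.log n)) n →
      |(R {k | ω ∈ S k} n : ℝ) - E P z n| ≤ η * E P z n := by
    filter_upwards [hlaw] with ω hω η hη
    obtain ⟨K, hK⟩ := hω (η / 2) (by positivity)
    have e3 := (isLittleO_log_rpow_rpow_atTop (3 : ℝ) (show (0 : ℝ) < 1 / 4 by norm_num)).bound
      (show (0 : ℝ) < η / (|K| + 1) by positivity)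
    filter_upwards [hK, hE3, tendsto_natCast_atTop_atTop.eventually e3, eventually_ge_atTop 3] with n g1 g2 g3 g4 hn hr
    have hn1 : (1 : ℝ) ≤ n := by exact_mod_cast (by omega : 1 ≤ n)
    have hn0 : (0 : ℝ) < n := by linarith
    have hl : 0 ≤ Real.log (n : ℝ) := Real.log_nonneg hn1
    have k2 := g2 hn hr
    rw [Real.norm_eq_abs, Real.norm_eq_abs, abs_of_nonneg (Real.rpow_nonneg hl _),
      abs_of_nonneg (Real.rpow_nonneg hn0.le _)] at g3
    have e5 : Real.log n ^ (3 : ℝ) = Real.log n ^ (3 : ℕ) := by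
      rw [← Real.rpow_natCast]; norm_num
    rw [e5] at g3
    have k3 : K * Real.log n ^ 3 ≤ η * (n : ℝ) ^ (1 / 4 : ℝ) := by
      calc K * Real.log n ^ 3 ≤ (|K| + 1) * Real.log n ^ 3 := by
            apply mul_le_mul_of_nonneg_right _ (by positivity)
            have := le_abs_self K
            linarith
        _ ≤ (|K| + 1) * (η / (|K| + 1) * (n : ℝ) ^ (1 / 4 : ℝ)) := by gcongr
        _ = _ := by field_simp
    have k4 : (1 / 2 - 1 / 4 : ℝ) = 1 / 4 := by norm_num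
    rw [k4] at k2
    rw [R_eq ω n, E_eq]
    have k5 : η * (n : ℝ) ^ (1 / 4 : ℝ) ≤ η / 2 * ∑ v ∈ quad3 n, Pool.Agent.N860.GS.rho P z (val3 v) := by
      have := mul_le_mul_of_nonneg_left k2 (show (0 : ℝ) ≤ η / 2 by positivity)
      linarith
    refine g1.trans ?_
    linarith
  refine ⟨?_, ?_, ?_, ?_, ?_⟩
  · filter_upwards [hElow, eventually_ge_atTop 1] with n h1 h2 hn hr
    have h3 : (0 : ℝ) < (n : ℝ) ^ (1 / 2 - ε) := Real.rpow_pos_of_pos (by exact_mod_cast h2) _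
    linarith [h1 hn hr]
  · filter_upwards [key] with ω hω
    rw [Metric.tendsto_nhds]
    intro η hη
    rw [eventually_inf_principal]
    filter_upwards [hω (η / 2) (by positivity), hElow, eventually_ge_atTop 1] with n h1 h2 h3 hn
    obtain ⟨hn', hr'⟩ := hn
    have h4 : (0 : ℝ) < (n : ℝ) ^ (1 / 2 - ε) := Real.rpow_pos_of_pos (by exact_mod_cast h3) _
    have h5 : 0 < E P z n := by linarith [h2 hn' hr']
    rw [Real.dist_eq, show (R {k | ω ∈ S k} n : ℝ) / E P z n - 1 =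
      ((R {k | ω ∈ S k} n : ℝ) - E P z n) / E P z n by field_simp, abs_div, abs_of_pos h5, div_lt_iff₀ h5]
    have := h1 hn' hr'
    nlinarith
  · filter_upwards [key] with ω hω
    filter_upwards [hω (1 / 2) (by norm_num), hElow] with n h1 h2 hn hr
    have h3 := (abs_le.1 (h1 hn hr)).1
    have h4 := h2 hn hr
    linarith
  · intro h n q hq hqP _ hq2
    obtain ⟨h1, h2⟩ := h q hqP hq hq2
    exact ⟨fun l hl hl5 hll => absurd hll (h2 l hl hl5), fun h3 => Or.inl (h1 h3)⟩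
  · intro n hn h q hq hqP hqx hq2
    refine ⟨fun l hl hl5 hll => ?_, fun _ => Or.inr hn⟩
    apply h l hl hl5
    have : Fact q.Prime := ⟨hq⟩
    have h20 : (2 : ZMod q) ≠ 0 := by
      intro h0
      have h3 : ((2 : ℕ) : ZMod q) = 0 := by exact_mod_cast h0
      rw [ZMod.natCast_eq_zero_iff] at h3
      exact hq2 ((Nat.prime_dvd_prime_iff_eq hq Nat.prime_two).1 h3)
    have h1 := ZMod.orderOf_dvd_card_sub_one h20
    have h4 := Nat.le_of_dvd (by have := hq.two_le; omega) (hll.trans h1)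
    have h5 : ((l ^ 2 : ℕ) : ℝ) ≤ q := by exact_mod_cast (by omega : l ^ 2 ≤ q)
    exact h5.trans hqx

end Pool.Agent.Results.MP_f6c7cf_nt.GrowingSieveModels
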