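import Pool.Agent.N719.SP.MainU

set_option autoImplicit false

/-!
# MP_f6c7cf_nt: only orders of `2` which are divisible by a square are exceptional

For odd `n` the quadruples `(x, y, z, w)` of natural numbers with `n = x² + y² + z² + 4 w²` are
considered; `N` stands for `2^x + 2^y + 2^z + 1`. In the starting results BeyondLogarithm and
LogSquared all prime factors of `N` in the ranges `q ≤ c log n log log n / log log log n` (all odd `n`)
and `q ≤ c (log n)²` (almost all odd `n`) are odd and exceptional: (a) `l²` divides the order of `2`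
modulo `q` for a prime `l ≥ 5` that divides `(3n-2)(9n-2)`, or (b) `3` divides this order, `q ≠ 7`, unless
`3 ∣ n` or `n ≡ 13 mod 32`. In ExceptionalPrimes (b) is one of the primes `7`, `73`, `262657`, except for the
`n` in some residue classes.

Here nothing is left of (b), for all odd `n`: a prime factor `q` of `N` in these ranges can only occur if `l²`
divides the order of `2` modulo `q` for a prime `l ≡ 3 mod 4`, `l ∣ 9n-8` (if `n ≡ 1 mod 4`) or for a prime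
`l ≡ 2 mod 3`, `l ≥ 5`, `l ∣ 3n-8` (if `n ≡ 3 mod 4`), or if `q = 113`, `n ≡ 1 mod 4`, `7 ∣ 9n-8` or
`q = 41`, `n ≡ 3 mod 4`, `5 ∣ 3n-8`. In particular, if `n ≡ 1 mod 4` and `9n-8` has no prime factor
`l ≡ 3 mod 4`, or `n ≡ 3 mod 4` and `3n-8` has no prime factor `l ≡ 2 mod 3`, `l ≥ 5`, then `N` has no prime
factor in these ranges.

The proof uses new residue classes: `(x, y, z) ≡ (t+1, 2t, 2t)` for `n ≡ 1 mod 4` and
`(x, y, z) ≡ (-t-1, t-1, t-1)` for `n ≡ 3 mod 4`, so that `N` is `1 + 2T + 2T²`, `T = 2^t`, up to a power of `2`,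
modulo the prime factors `q` of `2^K - 1`. This is an Aurifeuillian factor of `4T⁴ + 1 = 2^(2(2t+1)) + 1`. Hence
`q ∣ N` implies that the order of `2` modulo `q` is `4m`, `m` a divisor of `2t+1` and of `K`. The number `t` can be
chosen such that `t ≡ 2 mod 4`, which excludes `m = 1` (`q = 5`), and such that `2t+1` is coprime to the odd
part of `K`, except for a factor `7` (`n ≡ 1 mod 4`, `7 ∣ 9n-8`) or `5` (`n ≡ 3 mod 4`, `5 ∣ 3n-8`), which
leads to `113 ∣ 2^28 - 1` and `41 ∣ 2^20 - 1`: sign changes of `X` in the conics `X² + 9W² = 9n - 8`,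
`2X + 7 = 9(2t+1)`, and `X² + 3W² = 3n - 8`, `2X + 5 = 3(2t+1)`.
-/

namespace Pool.Agent.Results.MP_f6c7cf_nt.SquareOrders

/-- the exceptional primes -/
def Exceptional (n q : ℕ) : Prop :=
  (∃ l : ℕ, l.Prime ∧ 5 ≤ l ∧ l ^ 2 ∣ orderOf (2 : ZMod q) ∧
    ((n % 4 = 1 ∧ l % 4 = 3 ∧ (l : ℤ) ∣ 9 * n - 8) ∨ (n % 4 = 3 ∧ l % 3 = 2 ∧ (l : ℤ) ∣ 3 * n - 8))) ∨
  ((n % 4 = 1 ∧ n % 7 = 4 ∧ q = 113) ∨ (n % 4 = 3 ∧ n % 5 = 1 ∧ q = 41))

/-- For every `ε > 0` there is `c > 0` such that every large odd `n` has at least `n ^ (1 - ε)`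
quadruples with `n = x² + y² + z² + 4w²` for which every prime factor
`q ≤ c log n log log n / log log log n` of `2^x + 2^y + 2^z + 1` is odd and exceptional; and the same with
`q ≤ c (log n)²`, if no square of a prime `l` with `c log n < l ≤ (log n)²` divides `n`. -/
theorem result (ε : ℝ) (hε : 0 < ε) :
    (∃ c : ℝ, 0 < c ∧ ∃ n₀ : ℕ, ∀ n : ℕ, n₀ ≤ n → Odd n →
      ∃ S : Finset (ℕ × ℕ × ℕ × ℕ), (n : ℝ) ^ (1 - ε) ≤ (S.card : ℝ) ∧
        ∀ x y z w : ℕ, (x, y, z, w) ∈ S → n = x ^ 2 + y ^ 2 + z ^ 2 + 4 * w ^ 2 ∧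
          ∀ q : ℕ, q.Prime → q ∣ 2 ^ x + 2 ^ y + 2 ^ z + 1 →
            (q : ℝ) ≤ c * (Real.log n * Real.log (Real.log n) / Real.log (Real.log (Real.log n))) →
            q ≠ 2 ∧ Exceptional n q) ∧
    ∃ c : ℝ, 0 < c ∧ ∃ n₀ : ℕ, ∀ n : ℕ, n₀ ≤ n → Odd n →
      (∀ l : ℕ, l.Prime → c * Real.log n < l → (l : ℝ) ≤ (Real.log n) ^ 2 → ¬ l ^ 2 ∣ n) →
      ∃ S : Finset (ℕ × ℕ × ℕ × ℕ), (n : ℝ) ^ (1 - ε) ≤ (S.card : ℝ) ∧
        ∀ x y z w : ℕ, (x, y, z, w) ∈ S → n = x ^ 2 + y ^ 2 + z ^ 2 + 4 * w ^ 2 ∧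
          ∀ q : ℕ, q.Prime → q ∣ 2 ^ x + 2 ^ y + 2 ^ z + 1 → (q : ℝ) ≤ c * (Real.log n) ^ 2 →
            q ≠ 2 ∧ Exceptional n q := by
  constructor
  · obtain ⟨c, hc, n0, h⟩ := Pool.Agent.N719.SP.mainAU ε hε
    refine ⟨c, hc, n0, fun n hn hno => ?_⟩
    obtain ⟨S, h1, h2⟩ := h n hn hno
    refine ⟨S, h1, fun x y z w hS => ?_⟩
    obtain ⟨g1, g2⟩ := h2 x y z w hS
    refine ⟨g1, fun q hq hqN hqc => ?_⟩
    obtain ⟨k1, k2⟩ := g2 q hq hqN hqc
    exact ⟨k1, Pool.Agent.N719.SP.exc_finalU n q k2⟩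
  · obtain ⟨c, hc, n0, h⟩ := Pool.Agent.N719.SP.mainBU ε hε
    refine ⟨c, hc, n0, fun n hn hno hl => ?_⟩
    obtain ⟨S, h1, h2⟩ := h n hn hno hl
    refine ⟨S, h1, fun x y z w hS => ?_⟩
    obtain ⟨g1, g2⟩ := h2 x y z w hS
    refine ⟨g1, fun q hq hqN hqc => ?_⟩
    obtain ⟨k1, k2⟩ := g2 q hq hqN hqc
    exact ⟨k1, Pool.Agent.N719.SP.exc_finalU n q k2⟩

end Pool.Agent.Results.MP_f6c7cf_nt.SquareOrders
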